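import Mathlib

namespace Pool.Agent.Results.MP_d2274e_an.NegAB

open Set Filter Topology

abbrev E := EuclideanSpace ℝ (Fin 2)

/-- `w` is a modulus: nonnegative and non-decreasing on `[0,∞)`, tending to `0` at `0+`. -/
def Modulus (w : ℝ → ℝ) : Prop :=
  (∀ t, 0 ≤ t → 0 ≤ w t) ∧ MonotoneOn w (Ici 0) ∧ Tendsto w (𝓝[>] 0) (𝓝 0)

/-- Semiconvexity with modulus `w` on `G`. -/
def SemiConvex (G : Set E) (w : ℝ → ℝ) (f : E → ℝ) : Prop :=
  ContinuousOn f G ∧ ∀ x ∈ G, ∀ y ∈ G, ∀ l ∈ Icc (0 : ℝ) 1,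
    f (l • x + (1 - l) • y) ≤ l * f x + (1 - l) * f y + l * (1 - l) * ‖x - y‖ * w ‖x - y‖

/-- The class `C^{1,w}(G)`. -/
def C1w (G : Set E) (w : ℝ → ℝ) (f : E → ℝ) : Prop :=
  ∃ K > (0 : ℝ), ∃ f' : E → E →L[ℝ] ℝ, (∀ x ∈ G, HasFDerivAt f (f' x) x) ∧
    ∀ x ∈ G, ∀ y ∈ G, ‖f' x - f' y‖ ≤ K * w ‖x - y‖

/-- `G` contains no translate of a convex cone with nonempty interior. -/
def ConeFree (G : Set E) : Prop :=
  ∀ (a : E) (C : Set E), Convex ℝ C → (∀ x ∈ C, ∀ t : ℝ, 0 < t → t • x ∈ C) →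
    (interior C).Nonempty → ¬ ∀ c ∈ C, a + c ∈ G

lemma taylor {G : Set E} (ho : IsOpen G) {w : ℝ → ℝ} (hw : Modulus w) {f : E → ℝ}
    (h1 : SemiConvex G w f) (h2 : SemiConvex G w (-f)) {x : E} (hx : x ∈ G) :
    ∃ D : E →L[ℝ] ℝ, ∀ v, x + v ∈ G → |f (x + v) - f x - D v| ≤ ‖v‖ * w ‖v‖ := by
  have hb : ∀ p ∈ G, ∀ q ∈ G, ∀ l ∈ Icc (0 : ℝ) 1,
      |f (l • p + (1 - l) • q) - (l * f p + (1 - l) * f q)| ≤ l * (1 - l) * ‖p - q‖ * w ‖p - q‖ := by
    intro p hp q hq l hl
    have a := h1.2 p hp q hq l hl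
    have b := h2.2 p hp q hq l hl
    simp only [Pi.neg_apply] at b
    exact abs_le.2 ⟨by linarith, by linarith⟩
  let g : E → ℝ → ℝ := fun v t => (f (x + t • v) - f x) / t
  have hg : ∀ v s, x + v ∈ G → 0 < s → s ≤ 1 → |g v s - (f (x + v) - f x)| ≤ ‖v‖ * w ‖v‖ := by
    intro v s hv hs hs1
    have := hb _ hv x hx s ⟨hs.le, hs1⟩
    rw [add_sub_cancel_left, show s • (x + v) + (1 - s) • x = x + s • v by module] at this
    have e : g v s - (f (x + v) - f x) =
        (f (x + s • v) - (s * f (x + v) + (1 - s) * f x)) / s := by simp only [g]; field_simp; ring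
    rw [e, abs_div, abs_of_pos hs, div_le_iff₀ hs]
    have := mul_nonneg (norm_nonneg v) (hw.1 _ (norm_nonneg v))
    nlinarith [mul_nonneg (mul_nonneg hs.le hs.le) this]
  have hev : ∀ v : E, ∀ᶠ t : ℝ in 𝓝[>] 0, x + t • v ∈ G := fun v => by
    have : Tendsto (fun t : ℝ => x + t • v) (𝓝 0) (𝓝 x) :=
      (by fun_prop : Continuous fun t : ℝ => x + t • v).tendsto' 0 x (by simp)
    exact (this.eventually (ho.mem_nhds hx)).filter_mono nhdsWithin_le_nhds
  have hw0 : ∀ c : ℝ, 0 ≤ c → Tendsto (fun t : ℝ => c * w (t * c)) (𝓝[>] 0) (𝓝 0) := by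
    intro c hc
    rcases hc.eq_or_lt with rfl | hc
    · simp
    have : Tendsto (fun t : ℝ => t * c) (𝓝[>] 0) (𝓝[>] 0) :=
      tendsto_nhdsWithin_iff.2 ⟨(by fun_prop : Continuous fun t : ℝ => t * c).tendsto' 0 0 (by simp)
        |>.mono_left nhdsWithin_le_nhds,
        eventually_mem_nhdsWithin.mono fun t ht => mul_pos ht hc⟩
    simpa using (hw.2.2.comp this).const_mul c
  have hst : ∀ v s t, x + t • v ∈ G → 0 < s → s ≤ t → |g v s - g v t| ≤ ‖v‖ * w (t * ‖v‖) := by
    intro v s t hv hs hst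
    have ht : 0 < t := hs.trans_le hst
    have := hg (t • v) (s / t) hv (div_pos hs ht) ((div_le_one ht).2 hst)
    rw [norm_smul, Real.norm_eq_abs, abs_of_pos ht] at this
    have e : g v s - g v t = (g (t • v) (s / t) - (f (x + t • v) - f x)) / t := by
      simp only [g, smul_smul, div_mul_cancel₀ _ ht.ne']; field_simp
    rw [e, abs_div, abs_of_pos ht, div_le_iff₀ ht]; linarith
  have hlim : ∀ v, ∃ d, Tendsto (g v) (𝓝[>] 0) (𝓝 d) := by
    intro v
    refine cauchy_map_iff_exists_tendsto.1 (Metric.cauchy_iff.2 ⟨inferInstance, fun ε hε => ?_⟩)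
    obtain ⟨t, ⟨ht1, ht2⟩, ht3⟩ := (((hev v).and ((hw0 _ (norm_nonneg v)).eventually
      (gt_mem_nhds (half_pos hε)))).and self_mem_nhdsWithin).exists
    refine ⟨g v '' Ioc 0 t, image_mem_map (Ioc_mem_nhdsGT ht3), ?_⟩
    rintro _ ⟨a, ha, rfl⟩ _ ⟨b, hb, rfl⟩
    have a1 := abs_le.1 (hst v a t ht1 ha.1 ha.2)
    have a2 := abs_le.1 (hst v b t ht1 hb.1 hb.2)
    rw [Real.dist_eq]
    exact abs_lt.2 ⟨by linarith [a1.1, a2.2], by linarith [a1.2, a2.1]⟩
  choose D hD using hlim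
  have hom : ∀ (c : ℝ) v, 0 < c → D (c • v) = c * D v := by
    intro c v hc
    have t1 : Tendsto (fun t : ℝ => t * c) (𝓝[>] 0) (𝓝[>] 0) :=
      tendsto_nhdsWithin_iff.2 ⟨(by fun_prop : Continuous fun t : ℝ => t * c).tendsto' 0 0 (by simp)
        |>.mono_left nhdsWithin_le_nhds,
        eventually_mem_nhdsWithin.mono fun t ht => mul_pos ht hc⟩
    refine tendsto_nhds_unique (hD _) (((hD v).comp t1).const_mul c |>.congr' ?_)
    filter_upwards [self_mem_nhdsWithin] with t ht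
    have : t ≠ 0 := ne_of_gt ht
    simp only [g, Function.comp, smul_smul]; field_simp
  have add : ∀ u v, D (u + v) = D u + D v := by
    intro u v
    have t1 := (hD ((1/2 : ℝ) • (u + v))).sub (((hD u).add (hD v)).const_mul (1/2))
    have t2 : Tendsto (fun t => g ((1/2 : ℝ) • (u + v)) t - 1/2 * (g u t + g v t)) (𝓝[>] 0) (𝓝 0) := by
      refine squeeze_zero_norm' ?_ (hw0 _ (norm_nonneg (u - v)))
      filter_upwards [hev u, hev v, self_mem_nhdsWithin] with t a b ht
      have ht : 0 < t := ht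
      have := hb _ a _ b (1/2) ⟨by norm_num, by norm_num⟩
      rw [show x + t • u - (x + t • v) = t • (u - v) by module, norm_smul, Real.norm_eq_abs,
        abs_of_pos ht, show (1/2 : ℝ) • (x + t • u) + (1 - 1/2 : ℝ) • (x + t • v) =
          x + t • (1/2 : ℝ) • (u + v) by module] at this
      have e : g ((1/2 : ℝ) • (u + v)) t - 1/2 * (g u t + g v t) =
          (f (x + t • (1/2 : ℝ) • (u + v)) - (1/2 * f (x + t • u) + (1 - 1/2) * f (x + t • v))) / t := by
        simp only [g]; field_simp; ring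
      rw [e, Real.norm_eq_abs, abs_div, abs_of_pos ht, div_le_iff₀ ht]
      have := mul_nonneg (mul_nonneg ht.le (norm_nonneg (u - v)))
        (hw.1 _ (mul_nonneg ht.le (norm_nonneg (u - v))))
      nlinarith
    have := tendsto_nhds_unique t1 t2
    rw [hom _ _ (by norm_num)] at this
    linarith
  have D0 : D 0 = 0 := by have := add 0 0; rw [add_zero] at this; linarith
  have smul : ∀ (c : ℝ) v, D (c • v) = c * D v := by
    intro c v
    rcases lt_trichotomy c 0 with h | rfl | h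
    · have a := add (c • v) ((-c) • v)
      rw [← add_smul, add_neg_cancel, zero_smul, D0, hom _ _ (neg_pos.2 h)] at a
      linarith
    · simp [D0]
    · exact hom c v h
  refine ⟨LinearMap.toContinuousLinearMap ⟨⟨D, add⟩, smul⟩, fun v hv => ?_⟩
  change |f (x + v) - f x - D v| ≤ _
  rw [abs_sub_comm]
  refine le_of_tendsto ((hD v).sub_const _).abs ?_
  filter_upwards [Ioc_mem_nhdsGT one_pos] with s hs using hg v s hv hs.1 hs.2

noncomputable def w0 (t : ℝ) : ℝ := t / Real.log (9 + t)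

def G0 : Set E := {p | p 1 ^ 2 < p 0}

lemma L2 {t : ℝ} (ht : 0 ≤ t) : 2 ≤ Real.log (9 + t) := by
  rw [Real.le_log_iff_exp_le (by linarith), show (2:ℝ) = 1 + 1 by norm_num, Real.exp_add]
  nlinarith [Real.exp_one_lt_d9, Real.exp_pos 1]

lemma w0_d {t : ℝ} (ht : 0 ≤ t) :
    HasDerivAt w0 ((Real.log (9 + t) - t / (9 + t)) / Real.log (9 + t) ^ 2) t := by
  have h1 : HasDerivAt (fun t => Real.log (9 + t)) (1 / (9 + t)) t :=
    ((hasDerivAt_id t).const_add 9).log (by simp only [id]; linarith)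
  have := (hasDerivAt_id t).div h1 (by linarith [L2 ht])
  exact this.congr_deriv (by simp only [id]; ring)

lemma w0_cont : ContinuousOn w0 (Ici 0) := fun _ ht => (w0_d ht).continuousAt.continuousWithinAt

lemma w0_mono : MonotoneOn w0 (Ici 0) := by
  refine monotoneOn_of_deriv_nonneg (convex_Ici 0) w0_cont
    (fun t ht => (w0_d (interior_subset ht)).differentiableAt.differentiableWithinAt) fun t ht => ?_
  have h0 : 0 ≤ t := interior_subset ht
  rw [(w0_d h0).deriv]
  have : t / (9 + t) ≤ 1 := (div_le_one (by linarith)).2 (by linarith)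
  exact div_nonneg (by linarith [L2 h0]) (sq_nonneg _)

lemma w0_conc : ConcaveOn ℝ (Ici 0) w0 := by
  refine concaveOn_of_hasDerivWithinAt2_nonpos (f' := fun t =>
    (Real.log (9 + t) - t / (9 + t)) / Real.log (9 + t) ^ 2) (f'' := fun t =>
      (2 * t - (18 + t) * Real.log (9 + t)) / ((9 + t) ^ 2 * Real.log (9 + t) ^ 3))
    (convex_Ici 0) w0_cont (fun t ht => (w0_d (interior_subset ht)).hasDerivWithinAt)
    (fun t ht => ?_) fun t ht => ?_
  · have h0 : 0 ≤ t := interior_subset ht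
    have hL := L2 h0
    have h1 : HasDerivAt (fun t => Real.log (9 + t)) (1 / (9 + t)) t :=
      ((hasDerivAt_id t).const_add 9).log (by simp only [id]; linarith)
    have h2 := (hasDerivAt_id t).div ((hasDerivAt_id t).const_add 9) (by simp only [id]; linarith)
    have := (h1.sub h2).div (h1.pow 2) (by simp only [Pi.pow_apply]; positivity)
    refine (this.congr_deriv ?_).hasDerivWithinAt
    have h9 : 9 + t ≠ 0 := by linarith
    have hL0 : Real.log (9 + t) ≠ 0 := by linarith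
    simp only [id, Pi.pow_apply, Pi.sub_apply, Pi.div_apply]
    field_simp; ring
  · have h0 : 0 ≤ t := interior_subset ht
    have hL := L2 h0
    exact div_nonpos_of_nonpos_of_nonneg (by nlinarith) (by positivity)

lemma w0_nonneg {t : ℝ} (ht : 0 ≤ t) : 0 ≤ w0 t := div_nonneg ht (by linarith [L2 ht])

lemma w0_mod : Modulus w0 := ⟨fun _ => w0_nonneg, w0_mono, by
  have := (w0_d le_rfl).continuousAt.tendsto
  rw [show w0 0 = 0 by simp [w0]] at this
  exact this.mono_left nhdsWithin_le_nhds⟩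

lemma w0_mul {c t : ℝ} (hc : 1 ≤ c) (ht : 0 ≤ t) : w0 (c * t) ≤ c * w0 t := by
  unfold w0
  rw [← mul_div_assoc]
  exact div_le_div_of_nonneg_left (by positivity) (by linarith [L2 ht])
    (Real.log_le_log (by linarith) (by nlinarith))

lemma G0_open : IsOpen G0 := isOpen_lt (by fun_prop) (by fun_prop)

lemma G0_conv : Convex ℝ G0 := by
  intro x hx y hy a b ha hb hab
  simp only [G0, mem_ofPred_eq, PiLp.add_apply, PiLp.smul_apply, smul_eq_mul] at hx hy ⊢
  obtain rfl : b = 1 - a := by linarith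
  rcases ha.eq_or_lt with rfl | ha'
  · simpa using hy
  nlinarith [mul_nonneg (mul_nonneg ha hb) (sq_nonneg (x 1 - y 1)), mul_pos ha' (sub_pos.2 hx),
    mul_nonneg hb (sub_pos.2 hy).le]

noncomputable def e0 : E := EuclideanSpace.single 0 1
noncomputable def e1 : E := EuclideanSpace.single 1 1

section
variable {f : E → ℝ} {D : E → E →L[ℝ] ℝ}
  (hD : ∀ x ∈ G0, ∀ v, x + v ∈ G0 → |f (x + v) - f x - D x v| ≤ ‖v‖ * w0 ‖v‖)
include hD

lemma loc {p q u : E} (hp : p ∈ G0) (hq : q ∈ G0) (hu : ‖u‖ = 1) {h s : ℝ} (hh : 0 < h)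
    (hs : ‖q - p‖ + h ≤ s) (hq' : q + h • u ∈ G0) : |D p u - D q u| ≤ 3 * (s / h) * w0 s := by
  have n1 : ‖h • u‖ = h := by rw [norm_smul, hu, mul_one, Real.norm_eq_abs, abs_of_pos hh]
  have n2 : ‖q - p + h • u‖ ≤ s := (norm_add_le _ _).trans (by rw [n1]; exact hs)
  have m : ∀ t, 0 ≤ t → t ≤ s → t * w0 t ≤ s * w0 s := fun t ht hts =>
    mul_le_mul hts (w0_mono ht (ht.trans hts) hts) (w0_nonneg ht) (ht.trans hts)
  have a1 := abs_le.1 ((hD p hp (q - p + h • u) (by rwa [← add_assoc, add_sub_cancel])).trans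
    (m _ (norm_nonneg _) n2))
  have a2 := abs_le.1 ((hD p hp (q - p) (by rwa [add_sub_cancel])).trans
    (m _ (norm_nonneg _) (by linarith)))
  have a3 := abs_le.1 ((hD q hq _ hq').trans
    (m _ (norm_nonneg _) (by rw [n1]; linarith [norm_nonneg (q - p)])))
  rw [← add_assoc, add_sub_cancel, map_add, map_smul] at a1
  rw [add_sub_cancel] at a2
  rw [map_smul] at a3
  simp only [smul_eq_mul] at a1 a3
  rw [show 3 * (s / h) * w0 s = 3 * s * w0 s / h by ring, le_div_iff₀ hh,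
    show |D p u - D q u| * h = |(D p u - D q u) * h| by rw [abs_mul, abs_of_pos hh]]
  exact abs_le.2 ⟨by nlinarith [a1.1, a1.2, a2.1, a2.2, a3.1, a3.2],
    by nlinarith [a1.1, a1.2, a2.1, a2.2, a3.1, a3.2]⟩

lemma vert {p q : E} (hp : p ∈ G0) (hq : q ∈ G0) {h : ℝ} (hh : 0 < h) (hq' : h ^ 2 < q 0) {c : ℝ}
    (hs : ‖q - p‖ ≤ c * h) : |D p e1 - D q e1| ≤ 3 * (c + 1) * w0 ((c + 1) * h) := by
  have hq0 : q 1 ^ 2 < q 0 := hq
  have e : (c + 1) * h / h = c + 1 := by field_simp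
  rcases le_total 0 (q 1) with h1 | h1
  · have := loc hD hp hq (u := -e1) (by simp [e1]) hh (s := (c + 1) * h) (by linarith) (by
      simp only [G0, mem_ofPred_eq, e1]; simp
      rcases le_total h (q 1) with a | a <;> nlinarith)
    rwa [map_neg, map_neg, e, show -D p e1 - -D q e1 = -(D p e1 - D q e1) by ring, abs_neg] at this
  · have := loc hD hp hq (u := e1) (by simp [e1]) hh (s := (c + 1) * h) (by linarith) (by
      simp only [G0, mem_ofPred_eq, e1]; simp
      rcases le_total h (-q 1) with a | a <;> nlinarith)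
    rwa [e] at this

lemma chain (z : ℕ → E) (n : ℕ) (hz : ∀ k, k ≤ n → z k ∈ G0)
    (hs : ∀ k < n, ∃ h : ℝ, 0 < h ∧ h ≤ n ∧ h ^ 2 < z (k + 1) 0 ∧ ‖z (k + 1) - z k‖ ≤ 2 * h) :
    |D (z 0) e1 - D (z n) e1| ≤ n * (9 * w0 (3 * n)) := by
  have := dist_le_range_sum_of_dist_le (f := fun k => D (z k) e1) n
    (d := fun _ => 9 * w0 (3 * n)) fun {k} hk => by
      obtain ⟨h, h1, h2, h3, h4⟩ := hs k hk
      refine (vert hD (hz k hk.le) (hz _ hk) h1 h3 h4).trans ?_
      have := w0_mono (show (2 + 1) * h ∈ Ici 0 by simp; positivity)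
        (show 3 * (n:ℝ) ∈ Ici 0 by simp) (by linarith)
      linarith
  simpa [Real.dist_eq] using this

lemma vmain {x y : E} (hx : x ∈ G0) (hy : y ∈ G0) (hxy : x 0 ≤ y 0) :
    |D x e1 - D y e1| ≤ 648 * w0 ‖y - x‖ := by
  set d := ‖y - x‖ with hd
  have d0 : 0 ≤ d := norm_nonneg _
  have hx' : x 1 ^ 2 < x 0 := hx
  have hy' : y 1 ^ 2 < y 0 := hy
  rcases d0.eq_or_lt with h0 | h0
  · rw [sub_eq_zero.1 (norm_eq_zero.1 h0.symm), sub_self, abs_zero]
    exact mul_nonneg (by norm_num) (w0_nonneg d0)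
  rcases le_total d 1 with h1 | h1
  · have hn : d ^ 2 = (y 0 - x 0) ^ 2 + (y 1 - x 1) ^ 2 := by
      rw [hd, EuclideanSpace.norm_sq_eq]; simp
    have : (d / 4) ^ 2 < y 0 := by
      rcases le_total (y 0) 1 with a | a <;>
        nlinarith [sq_nonneg (x 1), sq_nonneg (y 1 + x 1), sq_nonneg (y 1)]
    have a := vert hD hx hy (by positivity) this (c := 4) (by linarith)
    have b := w0_mul (c := 5/4) (by norm_num) d0
    rw [show (4 + 1) * (d / 4) = 5/4 * d by ring] at a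
    linarith [w0_nonneg d0]
  · set n := ⌈√d⌉₊ with hn
    have s1 : 1 ≤ √d := Real.one_le_sqrt.2 h1
    have s2 : √d ≤ n := Nat.le_ceil _
    have s3 : (n:ℝ) < √d + 1 := Nat.ceil_lt_add_one (by linarith)
    have s4 : √d * √d = d := Real.mul_self_sqrt d0
    have n0 : (0:ℝ) < n := by linarith
    have hsh : ∀ p ∈ G0, ∀ t : ℝ, 0 ≤ t → p + t • e0 ∈ G0 ∧ t < (p + t • e0) 0 := fun p hp t ht => by
      have : p 1 ^ 2 < p 0 := hp
      simp only [G0, mem_ofPred_eq, e0]; simp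
      exact ⟨by linarith, by nlinarith⟩
    have hor : ∀ p ∈ G0, |D p e1 - D (p + ((n:ℝ) ^ 2) • e0) e1| ≤ n * (9 * w0 (3 * n)) := by
      intro p hp
      have := chain hD (fun k => p + ((k:ℝ) ^ 2) • e0) n (fun k _ => (hsh p hp _ (by positivity)).1)
        fun k hk => ⟨(k + 1 : ℕ), by positivity, by exact_mod_cast hk, (hsh p hp _ (by positivity)).2, by
          rw [add_sub_add_left_eq_sub, ← sub_smul, norm_smul]
          push_cast
          rw [show ((k:ℝ) + 1) ^ 2 - k ^ 2 = 2 * k + 1 by ring, Real.norm_eq_abs,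
            abs_of_pos (by positivity)]
          simp [e0]; linarith⟩
      simpa using this
    have hseg : ∀ k ≤ n, x + ((k:ℝ) / n) • (y - x) ∈ G0 := fun k hk =>
      G0_conv.add_smul_sub_mem hx hy ⟨by positivity, (div_le_one n0).2 (by exact_mod_cast hk)⟩
    have mid := chain hD (fun k => x + ((k:ℝ) / n) • (y - x) + ((n:ℝ) ^ 2) • e0) n
      (fun k hk => (hsh _ (hseg k hk) _ (by positivity)).1)
      fun k hk => ⟨n, n0, le_rfl, (hsh _ (hseg _ hk) _ (by positivity)).2, by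
        rw [add_sub_add_right_eq_sub, add_sub_add_left_eq_sub, ← sub_smul, norm_smul, ← hd]
        push_cast
        rw [show ((k:ℝ) + 1) / n - k / n = 1 / n by ring, Real.norm_eq_abs,
          abs_of_pos (by positivity), div_mul_eq_mul_div, div_le_iff₀ n0]
        nlinarith⟩
    simp only [Nat.cast_zero, zero_div, zero_smul, add_zero, div_self n0.ne', one_smul,
      add_sub_cancel] at mid
    have a1 := abs_le.1 (hor x hx)
    have a2 := abs_le.1 (hor y hy)
    have a3 := abs_le.1 mid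
    have key : n * (9 * w0 (3 * n)) ≤ 216 * w0 d := by
      have b1 : Real.log (9 + d) ≤ 2 * Real.log (9 + 3 * n) := by
        rw [show (2:ℝ) * Real.log (9 + 3 * n) = Real.log ((9 + 3 * n) ^ 2) by
          rw [Real.log_pow]; norm_num]
        exact Real.log_le_log (by linarith) (by nlinarith)
      have b2 := L2 d0
      have b3 := L2 (show 0 ≤ 3 * (n:ℝ) by positivity)
      have b4 : (n:ℝ) * n ≤ 4 * d := by nlinarith
      unfold w0
      rw [← mul_div_assoc, ← mul_div_assoc, ← mul_div_assoc,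
        div_le_div_iff₀ (by linarith) (by linarith)]
      nlinarith [mul_le_mul b4 b1 (by linarith) (by linarith)]
    exact abs_le.2 ⟨by linarith [a1.1, a2.2, a3.1], by linarith [a1.2, a2.1, a3.2]⟩

lemma main {x y : E} (hx : x ∈ G0) (hy : y ∈ G0) : ‖D x - D y‖ ≤ 660 * w0 ‖x - y‖ := by
  have d0 := w0_nonneg (norm_nonneg (x - y))
  have a1 : |D x e1 - D y e1| ≤ 648 * w0 ‖x - y‖ := by
    rcases le_total (x 0) (y 0) with h | h
    · rw [norm_sub_rev]; exact vmain hD hx hy h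
    · rw [abs_sub_comm]; exact vmain hD hy hx h
  have a0 : |D x e0 - D y e0| ≤ 12 * w0 ‖x - y‖ := by
    rcases (norm_nonneg (x - y)).eq_or_lt with h | h
    · rw [sub_eq_zero.1 (norm_eq_zero.1 h.symm)]; simp [w0]
    have hy' : y 1 ^ 2 < y 0 := hy
    have := loc hD hx hy (u := e0) (by simp [e0]) h (s := 2 * ‖x - y‖)
      (by rw [norm_sub_rev]; linarith) (by
        simp only [G0, mem_ofPred_eq, e0]; simp; linarith)
    rw [mul_div_cancel_right₀ _ h.ne'] at this
    linarith [w0_mul (c := 2) (by norm_num) h.le]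
  refine ContinuousLinearMap.opNorm_le_bound _ (by positivity) fun v => ?_
  have hv : v = v 0 • e0 + v 1 • e1 := by
    ext i; fin_cases i <;> simp [e0, e1]
  have b0 : |v 0| ≤ ‖v‖ := PiLp.norm_apply_le v 0
  have b1 : |v 1| ≤ ‖v‖ := PiLp.norm_apply_le v 1
  have e : (D x - D y) v = v 0 * (D x e0 - D y e0) + v 1 * (D x e1 - D y e1) := by
    conv_lhs => rw [hv]
    simp only [map_add, map_smul, sub_apply, smul_eq_mul]
  rw [e, Real.norm_eq_abs]
  refine (abs_add_le _ _).trans ?_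
  rw [abs_mul, abs_mul]
  nlinarith [mul_le_mul b0 a0 (abs_nonneg _) (norm_nonneg _),
    mul_le_mul b1 a1 (abs_nonneg _) (norm_nonneg _)]

end

lemma conefree : ConeFree G0 := by
  rintro a C - hC ⟨c, hc⟩ h
  obtain ⟨u, hu, hu1⟩ : ∃ u ∈ C, u 1 ≠ 0 := by
    have : Tendsto (fun t : ℝ => c + t • e1) (𝓝 0) (𝓝 c) :=
      (by fun_prop : Continuous fun t : ℝ => c + t • e1).tendsto' 0 c (by simp)
    obtain ⟨t, ht, ht0⟩ := (((this.eventually (mem_interior_iff_mem_nhds.1 hc)).filter_mono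
      (nhdsWithin_le_nhds (s := Ioi 0))).and self_mem_nhdsWithin).exists
    by_cases h1 : c 1 = 0
    · exact ⟨_, ht, by simp [e1, h1]; exact ne_of_gt ht0⟩
    · exact ⟨c, interior_subset hc, h1⟩
  have hp : 0 < u 1 ^ 2 := by positivity
  set t := (|u 0 - 2 * a 1 * u 1| + |a 0| + 1) / u 1 ^ 2 + 1 with ht
  have t1 : 1 ≤ t := by rw [ht]; exact le_add_of_nonneg_left (by positivity)
  have t2 : t * u 1 ^ 2 = |u 0 - 2 * a 1 * u 1| + |a 0| + 1 + u 1 ^ 2 := by rw [ht]; field_simp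
  have := h _ (hC u hu t (by linarith))
  simp only [G0, mem_ofPred_eq, PiLp.add_apply, PiLp.smul_apply, smul_eq_mul] at this
  have b1 := le_abs_self (u 0 - 2 * a 1 * u 1)
  have b2 := le_abs_self (a 0)
  have b3 := abs_nonneg (a 0)
  have b4 : t * (t * u 1 ^ 2) < a 0 + t * (u 0 - 2 * a 1 * u 1) := by nlinarith [sq_nonneg (a 1)]
  rw [t2] at b4
  nlinarith

theorem result : ∃ (G : Set E) (w : ℝ → ℝ), IsOpen G ∧ Convex ℝ G ∧ ¬ Bornology.IsBounded G ∧
    ConeFree G ∧ Modulus w ∧ ConcaveOn ℝ (Ici 0) w ∧ (∃ c > (0 : ℝ), ∀ᶠ t in 𝓝[>] 0, c ≤ w t / t) ∧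
    Tendsto (fun t => w t / t) atTop (𝓝 0) ∧
    ∀ f : E → ℝ, SemiConvex G w f → SemiConvex G w (-f) → C1w G w f := by
  refine ⟨G0, w0, G0_open, G0_conv, fun hb => ?_, conefree, w0_mod, w0_conc, ⟨1 / Real.log 10,
    one_div_pos.2 (Real.log_pos (by norm_num)), ?_⟩, ?_, fun f h1 h2 => ?_⟩
  · obtain ⟨R, hR0, hR⟩ := hb.exists_pos_norm_le
    have := hR ((R + 1) • e0) (by simp only [G0, mem_ofPred_eq, e0]; simp; linarith)
    rw [norm_smul, Real.norm_eq_abs, abs_of_pos (by linarith)] at this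
    simp [e0] at this; linarith
  · filter_upwards [Ioc_mem_nhdsGT one_pos] with t ht
    have := ht.1.ne'
    rw [show w0 t / t = 1 / Real.log (9 + t) by unfold w0; field_simp]
    exact one_div_le_one_div_of_le (by linarith [L2 ht.1.le])
      (Real.log_le_log (by linarith [ht.1]) (by linarith [ht.2]))
  · have := tendsto_inv_atTop_zero.comp
      (Real.tendsto_log_atTop.comp (tendsto_atTop_add_const_left _ 9 tendsto_id))
    refine this.congr' ?_
    filter_upwards [eventually_gt_atTop 0] with t ht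
    have := ht.ne'
    simp only [Function.comp, id, w0]; field_simp
  · have : ∀ x, ∃ D : E →L[ℝ] ℝ, x ∈ G0 → ∀ v, x + v ∈ G0 →
        |f (x + v) - f x - D v| ≤ ‖v‖ * w0 ‖v‖ := fun x => by
      by_cases hx : x ∈ G0
      · obtain ⟨D, hD⟩ := taylor G0_open w0_mod h1 h2 hx
        exact ⟨D, fun _ => hD⟩
      · exact ⟨0, fun h => absurd h hx⟩
    choose D hD using this
    refine ⟨660, by norm_num, D, fun x hx => ?_, fun x hx y hy => main hD hx hy⟩
    rw [hasFDerivAt_iff_isLittleO_nhds_zero, Asymptotics.isLittleO_iff]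
    intro ε hε
    have t1 : Tendsto (fun v : E => x + v) (𝓝 0) (𝓝 x) :=
      (by fun_prop : Continuous fun v : E => x + v).tendsto' 0 x (by simp)
    filter_upwards [t1.eventually (G0_open.mem_nhds hx), Metric.ball_mem_nhds 0 hε] with v h3 h4
    refine (hD x hx v h3).trans ?_
    rw [mul_comm]
    refine mul_le_mul_of_nonneg_right ?_ (norm_nonneg _)
    have := mem_ball_zero_iff.1 h4
    exact (div_le_self (norm_nonneg _) (by linarith [L2 (norm_nonneg v)])).trans this.le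

end Pool.Agent.Results.MP_d2274e_an.NegAB
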